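import Mathlib

/-!
# The finite check for four orders
-/

set_option autoImplicit false

namespace Pool.Agent.BoolNN

/-- `p` without its `j`-th bit changed -/
def flp {d : ℕ} (j : Fin d) (p : Fin d → Prop) : Fin d → Prop := fun i => if i = j then ¬ p i else p i

/-- the vectors `p` with `τ p` and not `τ (-p)` -/
def Tst {d : ℕ} (τ : (Fin d → Prop) → Prop) (p : Fin d → Prop) : Prop := τ p ∧ ¬ τ (fun i => ¬ p i)

/-- the vectors `p` with neither `τ p` nor `τ (-p)` -/
def Nst {d : ℕ} (τ : (Fin d → Prop) → Prop) (p : Fin d → Prop) : Prop := ¬ τ p ∧ ¬ τ (fun i => ¬ p i)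

namespace Fin4

/-- masks: the numbers below 16 whose `j`-th bit is `0` -/
def mz (j : ℕ) : ℕ := match j with | 0 => 21845 | 1 => 13107 | 2 => 3855 | _ => 255

/-- masks: the numbers below 16 whose `j`-th bit is `1` -/
def mo (j : ℕ) : ℕ := match j with | 0 => 43690 | 1 => 52428 | 2 => 61680 | _ => 65280

/-- mask of `bit j = a` -/
def mb (j : ℕ) (a : Bool) : ℕ := cond a (mo j) (mz j)

def tt (T : ℕ) (j : ℕ) : Bool := !(Nat.beq ((T &&& (T >>> (2 ^ j))) &&& mz j) 0)
def tn (T N : ℕ) (j : ℕ) : Bool :=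
  !(Nat.beq (((T &&& (N >>> (2 ^ j))) ||| (N &&& (T >>> (2 ^ j)))) &&& mz j) 0)
def nn (N : ℕ) (j : ℕ) : Bool := !(Nat.beq ((N &&& (N >>> (2 ^ j))) &&& mz j) 0)

def hyp6 (T N : ℕ) (j k : ℕ) (a b : Bool) : Bool :=
  Nat.beq ((T &&& mb j a) &&& mb k (!b)) 0 &&
    (Nat.beq ((N &&& mb j a) &&& mb k b) 0 && Nat.beq ((N &&& mb j (!a)) &&& mb k (!b)) 0)

def ab (T N : ℕ) (j k : ℕ) : Bool :=
  (!(nn N j) && !(nn N k)) && ((hyp6 T N j k false false || hyp6 T N j k false true) ||
    (hyp6 T N j k true false || hyp6 T N j k true true))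

def fin (T N : ℕ) : Bool :=
  !(tt T 0) || (!(tt T 1) || (!(tt T 2) || (!(tt T 3) || (!(tn T N 0) || (!(tn T N 1) || (!(tn T N 2) ||
    (!(tn T N 3) ||
    ((!(nn N 0) && (!(nn N 1) && (!(nn N 2) && !(nn N 3)))) ||
      (ab T N 0 1 || (ab T N 0 2 || (ab T N 0 3 || (ab T N 1 2 || (ab T N 1 3 || (ab T N 2 3 ||
      (ab T N 1 0 || (ab T N 2 0 || (ab T N 3 0 || (ab T N 2 1 || (ab T N 3 1 || ab T N 3 2
      )))))))))))))))))))

def chk (k : ℕ) (T N : ℕ) : Bool :=
  match k with
  | 0 => fin T N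
  | k + 1 => (chk k (T ||| 2 ^ k) N && chk k (T ||| 2 ^ (15 - k)) N) &&
      chk k T (N ||| (2 ^ k ||| 2 ^ (15 - k)))

theorem chk8 : chk 8 0 0 = true := by decide +kernel

/-- first mask of a type assignment -/
def TmF (g : ℕ → Fin 3) : ℕ → ℕ
  | 0 => 0
  | k + 1 => (if g k = 0 then 2 ^ k else if g k = 1 then 2 ^ (15 - k) else 0) ||| TmF g k

/-- second mask of a type assignment -/
def NmF (g : ℕ → Fin 3) : ℕ → ℕ
  | 0 => 0
  | k + 1 => (if g k = 2 then (2 ^ k ||| 2 ^ (15 - k)) else 0) ||| NmF g k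

theorem chk_sound (g : ℕ → Fin 3) : ∀ k T N, chk k T N = true → fin (T ||| TmF g k) (N ||| NmF g k) = true := by
  intro k
  induction k with
  | zero =>
    intro T N h
    simpa [TmF, NmF, chk] using h
  | succ k ih =>
    intro T N h
    simp only [chk, Bool.and_eq_true] at h
    obtain ⟨⟨h1, h2⟩, h3⟩ := h
    rcases (show g k = 0 ∨ g k = 1 ∨ g k = 2 by omega) with hg | hg | hg
    · have := ih _ _ h1
      simpa [TmF, NmF, hg, Nat.or_assoc] using this
    · have := ih _ _ h2
      simpa [TmF, NmF, hg, Nat.or_assoc] using this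
    · have := ih _ _ h3
      simpa [TmF, NmF, hg, Nat.or_assoc] using this

theorem TmF_bit (g : ℕ → Fin 3) (k i : ℕ) : (TmF g k).testBit i = true ↔
    ∃ j, j < k ∧ ((g j = 0 ∧ i = j) ∨ (g j = 1 ∧ i = 15 - j)) := by
  induction k with
  | zero => simp [TmF]
  | succ k ih =>
    rw [TmF, Nat.testBit_or, Bool.or_eq_true, ih]
    constructor
    · rintro (h | ⟨j, hj, h⟩)
      · refine ⟨k, by omega, ?_⟩
        split_ifs at h with h0 h1
        · rw [Nat.testBit_two_pow, decide_eq_true_eq] at h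
          exact Or.inl ⟨h0, h.symm⟩
        · rw [Nat.testBit_two_pow, decide_eq_true_eq] at h
          exact Or.inr ⟨h1, h.symm⟩
        · simp at h
      · exact ⟨j, by omega, h⟩
    · rintro ⟨j, hj, h⟩
      rcases Nat.lt_succ_iff_lt_or_eq.1 hj with hjk | rfl
      · exact Or.inr ⟨j, hjk, h⟩
      · left
        rcases h with ⟨h0, rfl⟩ | ⟨h1, rfl⟩
        · rw [if_pos h0, Nat.testBit_two_pow, decide_eq_true_eq]
        · rw [if_neg (by rw [h1]; decide), if_pos h1, Nat.testBit_two_pow, decide_eq_true_eq]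

theorem NmF_bit (g : ℕ → Fin 3) (k i : ℕ) : (NmF g k).testBit i = true ↔
    ∃ j, j < k ∧ g j = 2 ∧ (i = j ∨ i = 15 - j) := by
  induction k with
  | zero => simp [NmF]
  | succ k ih =>
    rw [NmF, Nat.testBit_or, Bool.or_eq_true, ih]
    constructor
    · rintro (h | ⟨j, hj, h⟩)
      · refine ⟨k, by omega, ?_⟩
        split_ifs at h with h0
        · rw [Nat.testBit_or, Bool.or_eq_true, Nat.testBit_two_pow, Nat.testBit_two_pow,
            decide_eq_true_eq, decide_eq_true_eq] at h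
          exact ⟨h0, h.imp Eq.symm Eq.symm⟩
        · simp at h
      · exact ⟨j, by omega, h⟩
    · rintro ⟨j, hj, h0, h⟩
      rcases Nat.lt_succ_iff_lt_or_eq.1 hj with hjk | rfl
      · exact Or.inr ⟨j, hjk, h0, h⟩
      · left
        rw [if_pos h0, Nat.testBit_or, Bool.or_eq_true, Nat.testBit_two_pow, Nat.testBit_two_pow,
            decide_eq_true_eq, decide_eq_true_eq]
        exact h.imp Eq.symm Eq.symm

/-- the number of a vector -/
noncomputable def code (p : Fin 4 → Prop) : ℕ := by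
  classical exact (if p 0 then 1 else 0) + (if p 1 then 2 else 0) + (if p 2 then 4 else 0) +
    (if p 3 then 8 else 0)

/-- the vector of a number -/
def vec (i : ℕ) : Fin 4 → Prop := fun j => i.testBit j = true

theorem fin4_ext (p q : Fin 4 → Prop) (h0 : p 0 ↔ q 0) (h1 : p 1 ↔ q 1) (h2 : p 2 ↔ q 2)
    (h3 : p 3 ↔ q 3) : p = q := by
  funext i
  apply propext
  fin_cases i
  · exact h0
  · exact h1
  · exact h2
  · exact h3

theorem code_lt (p : Fin 4 → Prop) : code p < 16 := by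
  unfold code
  split_ifs <;> norm_num

theorem code_bit (p : Fin 4 → Prop) (j : Fin 4) : (code p).testBit j = true ↔ p j := by
  unfold code
  by_cases h0 : p 0 <;> by_cases h1 : p 1 <;> by_cases h2 : p 2 <;> by_cases h3 : p 3 <;>
    simp only [h0, h1, h2, h3, if_true, if_false] <;> fin_cases j <;>
    simp [h0, h1, h2, h3] <;> decide

theorem vec_code (p : Fin 4 → Prop) : vec (code p) = p := by
  funext j
  exact propext (code_bit p j)

theorem code_inj (p q : Fin 4 → Prop) (h : code p = code q) : p = q := by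
  rw [← vec_code p, h, vec_code]

theorem code_neg (p : Fin 4 → Prop) : code (fun i => ¬ p i) = 15 - code p := by
  unfold code
  by_cases h0 : p 0 <;> by_cases h1 : p 1 <;> by_cases h2 : p 2 <;> by_cases h3 : p 3 <;>
    simp [h0, h1, h2, h3]

theorem code_vec (i : ℕ) (hi : i < 16) : code (vec i) = i := by
  apply Nat.eq_of_testBit_eq
  intro k
  rcases lt_or_ge k 4 with hk | hk
  · have h := code_bit (vec i) ⟨k, hk⟩
    have h2 : (vec i) ⟨k, hk⟩ ↔ i.testBit k = true := Iff.rfl
    rw [h2] at h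
    simp only at h
    cases h3 : i.testBit k
    · cases h4 : (code (vec i)).testBit k
      · rfl
      · rw [h3, h4] at h
        simp at h
    · exact h.2 h3
  · have h1 : i < 2 ^ k := lt_of_lt_of_le hi (by
      calc 16 = 2 ^ 4 := by norm_num
        _ ≤ 2 ^ k := Nat.pow_le_pow_right (by norm_num) hk)
    have h2 : code (vec i) < 2 ^ k := lt_of_lt_of_le (code_lt _) (by
      calc 16 = 2 ^ 4 := by norm_num
        _ ≤ 2 ^ k := Nat.pow_le_pow_right (by norm_num) hk)
    rw [Nat.testBit_lt_two_pow h1, Nat.testBit_lt_two_pow h2]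

theorem edge (j : Fin 4) (p : Fin 4 → Prop) : ∃ c, c < 16 ∧ c.testBit j = false ∧
    ((code p = c ∧ code (flp j p) = 2 ^ (j : ℕ) + c) ∨ (code p = 2 ^ (j : ℕ) + c ∧ code (flp j p) = c)) := by
  by_cases hj : p j
  · refine ⟨code (flp j p), code_lt _, ?_, Or.inr ⟨?_, rfl⟩⟩
    · rw [← Bool.not_eq_true, code_bit]
      unfold flp
      rw [if_pos rfl]
      exact not_not.2 hj
    · unfold code flp
      by_cases h0 : p 0 <;> by_cases h1 : p 1 <;> by_cases h2 : p 2 <;> by_cases h3 : p 3 <;>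
        fin_cases j <;> simp_all
  · refine ⟨code p, code_lt _, ?_, Or.inl ⟨rfl, ?_⟩⟩
    · rw [← Bool.not_eq_true, code_bit]
      exact hj
    · unfold code flp
      by_cases h0 : p 0 <;> by_cases h1 : p 1 <;> by_cases h2 : p 2 <;> by_cases h3 : p 3 <;>
        fin_cases j <;> simp_all

theorem mz_bit : ∀ j < 4, ∀ c < 16, (mz j).testBit c = !(c.testBit j) := by decide

theorem mb_bit : ∀ j < 4, ∀ a : Bool, ∀ c < 16, (mb j a).testBit c = (c.testBit j == a) := by decide

theorem beq_zero (m : ℕ) : Nat.beq m 0 = true ↔ ∀ i, m.testBit i = false := by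
  rw [Nat.beq_eq]
  constructor
  · rintro rfl i
    exact Nat.zero_testBit i
  · intro h
    exact Nat.zero_of_testBit_eq_false h

theorem beq_zero' (m i : ℕ) (h : m.testBit i = true) : (!(Nat.beq m 0)) = true := by
  rw [Bool.not_eq_true', ← Bool.not_eq_true, beq_zero]
  intro h2
  rw [h2 i] at h
  exact Bool.false_ne_true h

/-- the conclusion for the codes -/
theorem bits_main (Tb Nb : ℕ → Prop) (hT : ∀ i < 16, Tb i → ¬ Tb (15 - i)) (hTN : ∀ i < 16, Tb i → ¬ Nb i)
    (hN : ∀ i < 16, Nb i → Nb (15 - i)) :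
    ∃ T N : ℕ, fin T N = true ∧ (∀ i < 16, Tb i → T.testBit i = true) ∧
      ∀ i < 16, (Nb i ↔ N.testBit i = true) := by
  classical
  let g : ℕ → Fin 3 := fun k => if Tb k then 0 else if Tb (15 - k) then 1 else if Nb k then 2 else 0
  have h := chk_sound g 8 0 0 chk8
  rw [Nat.zero_or, Nat.zero_or] at h
  refine ⟨TmF g 8, NmF g 8, h, ?_, ?_⟩
  · intro i hi hTi
    rw [TmF_bit]
    rcases lt_or_ge i 8 with h8 | h8
    · refine ⟨i, h8, Or.inl ⟨?_, rfl⟩⟩
      simp only [g]
      rw [if_pos hTi]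
    · refine ⟨15 - i, by omega, Or.inr ⟨?_, by omega⟩⟩
      simp only [g]
      rw [if_neg (hT i hi hTi), if_pos (by rw [show 15 - (15 - i) = i by omega]; exact hTi)]
  · intro i hi
    rw [NmF_bit]
    constructor
    · intro hNi
      rcases lt_or_ge i 8 with h8 | h8
      · refine ⟨i, h8, ?_, Or.inl rfl⟩
        simp only [g]
        rw [if_neg (fun h => hTN i hi h hNi), if_neg (fun h => hTN (15 - i) (by omega) h (hN i hi hNi)), if_pos hNi]
      · refine ⟨15 - i, by omega, ?_, Or.inr (by omega)⟩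
        simp only [g]
        rw [if_neg (fun h => hTN (15 - i) (by omega) h (hN i hi hNi)), if_neg (fun h => by
          rw [show 15 - (15 - i) = i by omega] at h
          exact hTN i hi h hNi), if_pos (hN i hi hNi)]
    · rintro ⟨j, hj, hgj, hij⟩
      have hNj : Nb j := by
        simp only [g] at hgj
        split_ifs at hgj with h1 h2 h3
        · exact absurd hgj (by decide)
        · exact absurd hgj (by decide)
        · exact h3
        · exact absurd hgj (by decide)
      rcases hij with rfl | rfl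
      · exact hNj
      · exact hN j (by omega) hNj

theorem tt_of (T : ℕ) (j : Fin 4) (p : Fin 4 → Prop) (h1 : T.testBit (code p) = true)
    (h2 : T.testBit (code (flp j p)) = true) : tt T j = true := by
  obtain ⟨c, hc, hj, h⟩ := edge j p
  unfold tt
  apply beq_zero' _ c
  rw [Nat.testBit_and, Nat.testBit_and, Nat.testBit_shiftRight, mz_bit j j.2 c hc, hj]
  rcases h with ⟨h3, h4⟩ | ⟨h3, h4⟩
  · rw [h3] at h1
    rw [h4] at h2
    rw [h1, h2]
    rfl
  · rw [h3] at h1
    rw [h4] at h2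
    rw [h1, h2]
    rfl

theorem nn_of (N : ℕ) (j : Fin 4) (p : Fin 4 → Prop) (h1 : N.testBit (code p) = true)
    (h2 : N.testBit (code (flp j p)) = true) : nn N j = true :=
  tt_of N j p h1 h2

theorem tn_of (T N : ℕ) (j : Fin 4) (p : Fin 4 → Prop) (h1 : T.testBit (code p) = true)
    (h2 : N.testBit (code (flp j p)) = true) : tn T N j = true := by
  obtain ⟨c, hc, hj, h⟩ := edge j p
  unfold tn
  apply beq_zero' _ c
  rw [Nat.testBit_and, Nat.testBit_or, Nat.testBit_and, Nat.testBit_and, Nat.testBit_shiftRight,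
    Nat.testBit_shiftRight, mz_bit j j.2 c hc, hj]
  rcases h with ⟨h3, h4⟩ | ⟨h3, h4⟩
  · rw [h3] at h1
    rw [h4] at h2
    rw [h1, h2]
    rfl
  · rw [h3] at h1
    rw [h4] at h2
    rw [h1, h2]
    simp

theorem and_false (A B : ℕ) (h : Nat.beq (A &&& B) 0 = true) (c : ℕ) (h1 : A.testBit c = true) :
    B.testBit c = false := by
  rw [beq_zero] at h
  have h2 := h c
  rw [Nat.testBit_and, h1, Bool.true_and] at h2
  exact h2

theorem hyp6_of (T N : ℕ) (j k : Fin 4) (a b : Bool) (h : hyp6 T N j k a b = true) :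
    (∀ p : Fin 4 → Prop, T.testBit (code p) = true → (p j ↔ a = true) → (p k ↔ b = true)) ∧
    ∀ p : Fin 4 → Prop, N.testBit (code p) = true → ((p j ↔ a = true) ↔ ¬ (p k ↔ b = true)) := by
  unfold hyp6 at h
  rw [Bool.and_eq_true, Bool.and_eq_true] at h
  obtain ⟨h1, h2, h3⟩ := h
  have key : ∀ (p : Fin 4 → Prop) (j : Fin 4) (a : Bool), (mb j a).testBit (code p) = true ↔ (p j ↔ a = true) := by
    intro p j a
    rw [mb_bit j j.2 a _ (code_lt p), ← code_bit p j]
    cases (code p).testBit j <;> cases a <;> simp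
  have keyn : ∀ (p : Fin 4 → Prop) (j : Fin 4) (a : Bool), (mb j (!a)).testBit (code p) = true ↔ ¬ (p j ↔ a = true) := by
    intro p j a
    rw [mb_bit j j.2 (!a) _ (code_lt p), ← code_bit p j]
    cases (code p).testBit j <;> cases a <;> simp
  constructor
  · intro p hp hj
    have h4 := and_false _ _ h1 (code p) (by rw [Nat.testBit_and, hp, (key p j a).2 hj]; rfl)
    by_contra hk
    rw [(keyn p k b).2 hk] at h4
    exact Bool.false_ne_true h4.symm
  · intro p hp
    constructor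
    · intro hj hk
      have h4 := and_false _ _ h2 (code p) (by rw [Nat.testBit_and, hp, (key p j a).2 hj]; rfl)
      rw [(key p k b).2 hk] at h4
      exact Bool.false_ne_true h4.symm
    · intro hk
      by_contra hj
      have h4 := and_false _ _ h3 (code p) (by rw [Nat.testBit_and, hp, (keyn p j a).2 hj]; rfl)
      rw [(keyn p k b).2 hk] at h4
      exact Bool.false_ne_true h4.symm

theorem ab_of (T N : ℕ) (j k : Fin 4) (h : ab T N j k = true) :
    nn N j = false ∧ nn N k = false ∧ ∃ a b : Bool,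
    (∀ p : Fin 4 → Prop, T.testBit (code p) = true → (p j ↔ a = true) → (p k ↔ b = true)) ∧
    ∀ p : Fin 4 → Prop, N.testBit (code p) = true → ((p j ↔ a = true) ↔ ¬ (p k ↔ b = true)) := by
  unfold ab at h
  rw [Bool.and_eq_true, Bool.and_eq_true, Bool.not_eq_true', Bool.not_eq_true', Bool.or_eq_true,
    Bool.or_eq_true, Bool.or_eq_true] at h
  obtain ⟨⟨h1, h2⟩, h3⟩ := h
  refine ⟨h1, h2, ?_⟩
  rcases h3 with (h3 | h3) | (h3 | h3)
  · exact ⟨_, _, hyp6_of T N j k _ _ h3⟩
  · exact ⟨_, _, hyp6_of T N j k _ _ h3⟩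
  · exact ⟨_, _, hyp6_of T N j k _ _ h3⟩
  · exact ⟨_, _, hyp6_of T N j k _ _ h3⟩

theorem fin_of (T N : ℕ) (h : fin T N = true) (htt : ∀ j : Fin 4, tt T j = true)
    (htn : ∀ j : Fin 4, tn T N j = true) :
    (∀ j : Fin 4, nn N j = false) ∨ ∃ j k : Fin 4, j ≠ k ∧ ab T N j k = true := by
  have t0 := htt 0
  have t1 := htt 1
  have t2 := htt 2
  have t3 := htt 3
  have n0 := htn 0
  have n1 := htn 1
  have n2 := htn 2
  have n3 := htn 3
  simp only [Fin.val_zero, Fin.val_one, Fin.val_two] at t0 t1 t2 n0 n1 n2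
  rw [show ((3 : Fin 4) : ℕ) = 3 from rfl] at t3 n3
  unfold fin at h
  rw [t0, t1, t2, t3, n0, n1, n2, n3] at h
  simp only [Bool.not_true, Bool.false_or, Bool.or_eq_true, Bool.and_eq_true, Bool.not_eq_true'] at h
  rcases h with h | h | h | h | h | h | h | h | h | h | h | h | h
  · left
    intro j
    fin_cases j
    · exact h.1
    · exact h.2.1
    · exact h.2.2.1
    · exact h.2.2.2
  · exact Or.inr ⟨0, 1, by decide, h⟩
  · exact Or.inr ⟨0, 2, by decide, h⟩
  · exact Or.inr ⟨0, 3, by decide, h⟩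
  · exact Or.inr ⟨1, 2, by decide, h⟩
  · exact Or.inr ⟨1, 3, by decide, h⟩
  · exact Or.inr ⟨2, 3, by decide, h⟩
  · exact Or.inr ⟨1, 0, by decide, h⟩
  · exact Or.inr ⟨2, 0, by decide, h⟩
  · exact Or.inr ⟨3, 0, by decide, h⟩
  · exact Or.inr ⟨2, 1, by decide, h⟩
  · exact Or.inr ⟨3, 1, by decide, h⟩
  · exact Or.inr ⟨3, 2, by decide, h⟩

end Fin4

open Fin4 in
/-- **Item 7.** Four orders: if for every `j` there is an edge of the cube in direction `j` inside `T*` and one
between `T*` and `N*`, then either there is no edge inside `N*` at all, or there are two directions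
`j ≠ k` without edges inside `N*` such that, for some bits `a` and `b`, `p j = a` implies `p k = b` for `p` in `T*` and
exactly one of `p j = a` and `p k = b` holds for `p` in `N*`. -/
theorem fin4 (τ : (Fin 4 → Prop) → Prop) (hTT : ∀ j, ∃ p, Tst τ p ∧ Tst τ (flp j p))
    (hTN : ∀ j, ∃ p, Tst τ p ∧ Nst τ (flp j p)) :
    (∀ j p, ¬ (Nst τ p ∧ Nst τ (flp j p))) ∨
    ∃ j k : Fin 4, j ≠ k ∧ (∀ p, ¬ (Nst τ p ∧ Nst τ (flp j p))) ∧ (∀ p, ¬ (Nst τ p ∧ Nst τ (flp k p))) ∧
      ∃ a b : Bool, (∀ p, Tst τ p → (p j ↔ a = true) → (p k ↔ b = true)) ∧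
        ∀ p, Nst τ p → ((p j ↔ a = true) ↔ ¬ (p k ↔ b = true)) := by
  have hneg : ∀ i < 16, vec (15 - i) = fun j => ¬ vec i j := by
    intro i hi
    apply code_inj
    rw [code_neg, code_vec i hi, code_vec _ (by omega)]
  have hnn : ∀ p : Fin 4 → Prop, (fun i => ¬ (fun i => ¬ p i) i) = p := by
    intro p
    funext i
    exact propext not_not
  obtain ⟨T, N, hfin, hT, hN⟩ := bits_main (fun i => Tst τ (vec i)) (fun i => Nst τ (vec i))
    (by
      intro i hi h1 h2
      rw [hneg i hi] at h2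
      exact h1.2 h2.1)
    (fun i _ h1 h2 => h2.1 h1.1)
    (by
      intro i hi h1
      show Nst τ (vec (15 - i))
      rw [hneg i hi]
      refine ⟨h1.2, ?_⟩
      rw [hnn]
      exact h1.1)
  have hTc : ∀ p, Tst τ p → T.testBit (code p) = true := by
    intro p hp
    apply hT _ (code_lt p)
    show Tst τ (vec (code p))
    rw [vec_code]
    exact hp
  have hNc : ∀ p, Nst τ p → N.testBit (code p) = true := by
    intro p hp
    apply (hN _ (code_lt p)).1
    show Nst τ (vec (code p))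
    rw [vec_code]
    exact hp
  have hnnf : ∀ j : Fin 4, nn N j = false → ∀ p, ¬ (Nst τ p ∧ Nst τ (flp j p)) := by
    rintro j hj p ⟨h1, h2⟩
    rw [nn_of N j p (hNc _ h1) (hNc _ h2)] at hj
    exact Bool.false_ne_true hj.symm
  rcases fin_of T N hfin (fun j => by
    obtain ⟨p, h1, h2⟩ := hTT j
    exact tt_of T j p (hTc _ h1) (hTc _ h2)) (fun j => by
    obtain ⟨p, h1, h2⟩ := hTN j
    exact tn_of T N j p (hTc _ h1) (hNc _ h2)) with h | ⟨j, k, hjk, h⟩
  · exact Or.inl fun j => hnnf j (h j)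
  · obtain ⟨h1, h2, a, b, h3, h4⟩ := ab_of T N j k h
    exact Or.inr ⟨j, k, hjk, hnnf j h1, hnnf k h2, a, b, fun p hp => h3 p (hTc _ hp),
      fun p hp => h4 p (hNc _ hp)⟩

end Pool.Agent.BoolNN
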